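import Pool.Agent.Lib.MP_1abf27_gt.NotQD

/-!
# A surface of weight at most `ℵ₁` with a `G_δ`-diagonal that is not quasi-developable
-/

namespace Pool.Agent.Results.MP_1abf27_gt.NotQuasiDev

open Pool.Agent.Lib.MP_1abf27_gt Topology

/-- the index set, well-ordered in type `ω₁` -/
abbrev Idx : Type := (Cardinal.aleph.{0} 1).ord.ToType

lemma mk_Idx : Cardinal.mk Idx = Cardinal.aleph 1 := Cardinal.mk_ord_toType _

lemma countable_Iio (α : Idx) : (Set.Iio α).Countable := by
  rw [← Cardinal.le_aleph0_iff_set_countable]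
  have h := Cardinal.mk_Iio_lt α (by simp)
  rw [mk_Idx] at h
  rwa [← not_lt, ← Cardinal.aleph_one_le_iff, not_le]

lemma nonempty_walkData : Nonempty (WalkData Idx) := by
  refine exists_walkData countable_Iio ?_
  rw [mk_Idx]
  exact Cardinal.aleph_one_le_continuum

lemma uncountable_Idx : Uncountable Idx := by
  rw [← Cardinal.aleph0_lt_mk_iff, mk_Idx]
  exact Cardinal.aleph0_lt_aleph_one

variable {I : Type} [LinearOrder I] [WellFoundedLT I] (W : WalkData I)

lemma isCell_range (α : I) : IsCell 2 (Set.range (ch W α)) := by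
  refine ⟨isOpen_range_ch W α, ?_⟩
  have h1 : ℝ × ℝ ≃ₜ Set.range (ch W α) :=
    (isOpenEmbedding_ch W α).toIsEmbedding.toHomeomorph
  have h2 : EuclideanSpace ℝ (Fin 2) ≃ₜ (Fin 2 → ℝ) :=
    (EuclideanSpace.equiv (Fin 2) ℝ).toHomeomorph
  have h3 : (Fin 2 → ℝ) ≃ₜ ℝ × ℝ := Homeomorph.finTwoArrow
  exact ⟨h1.symm.trans (h3.symm.trans h2.symm)⟩

lemma weight_le (hI : Cardinal.mk I = Cardinal.aleph 1) :
    manifoldWeight 2 (Surf W) ≤ Cardinal.aleph 1 := by
  unfold manifoldWeight
  have h1 : sInf {κ : Cardinal.{0} | ∃ C : Set (Set (Surf W)),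
      (∀ U ∈ C, IsCell 2 U) ∧ ⋃₀ C = Set.univ ∧ Cardinal.mk C = κ} ≤ Cardinal.aleph 1 := by
    have h2 : Cardinal.mk (Set.range (fun α => Set.range (ch W α))) ≤ Cardinal.aleph 1 := by
      rw [← hI]; exact Cardinal.mk_range_le
    refine (csInf_le' ?_).trans h2
    refine ⟨Set.range (fun α => Set.range (ch W α)), ?_, ?_, rfl⟩
    · rintro U ⟨α, rfl⟩
      exact isCell_range W α
    · rw [Set.sUnion_range]
      exact iUnion_range_ch W
  refine (add_le_add_right h1 _).trans ?_
  rw [Cardinal.add_eq_right (Cardinal.aleph0_le_aleph 1) (Cardinal.aleph0_le_aleph 1)]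

/-- There is a connected Hausdorff two-dimensional manifold of weight at most `ℵ₁` with a
`G_δ`-diagonal that is not quasi-developable. -/
theorem result : ∃ (M : Type) (_ : TopologicalSpace M), IsTopManifold 2 M ∧
    manifoldWeight 2 M ≤ Cardinal.aleph 1 ∧ IsGδ (Set.diagonal M) ∧ ¬ QuasiDevelopable M := by
  obtain ⟨W⟩ := nonempty_walkData
  have hu : Uncountable Idx := uncountable_Idx
  have hne : Nonempty Idx := inferInstance
  refine ⟨Surf W, surfTop W, ?_, weight_le W mk_Idx, isGδ_diagonal W, not_quasiDevelopable W⟩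
  refine ⟨by norm_num, connected_surf W, t2Surf W, ?_⟩
  intro x
  exact ⟨Set.range (ch W x.1.1), ⟨_, ch_self W x⟩, isCell_range W _⟩

end Pool.Agent.Results.MP_1abf27_gt.NotQuasiDev
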